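import Pool.Agent.helper66.SL.SpecC

set_option autoImplicit false

namespace Pool.Agent.helper66.SL

open Pool.Agent.helper52.FC

theorem LO7_fl {E : Type} (T : E → SignType) (e : E) :
    fl (fun g => -T g) e = fun g => -(fl T e g) := by
  funext g
  by_cases hg : g = e
  · subst hg
    rw [fl_same, fl_same]
  · rw [fl_ne _ hg, fl_ne _ hg]

theorem LO7_wall {E : Type} {L : Set (E → SignType)} (hL : IsOM L) (hs : IsSimple L) (T : E → SignType)
    (e : E) (h : Wall L T e) : Wall L (fun g => -T g) e := by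
  show IsTope L (fl (fun g => -T g) e)
  rw [LO7_fl]
  exact tope_neg hL hs h

theorem LO7_negneg {E : Type} (T : E → SignType) : (fun g => -(fun g' => -T g') g) = T := by
  funext g
  simp

theorem LO7_cork {E : Type} {L : Set (E → SignType)} (hL : IsOM L) (hs : IsSimple L) (p : E → SignType)
    (k : ℕ) (h : Cork L p k) : Cork L (fun g => -p g) k := by
  refine ⟨hL.neg p h.1, fun T hT hle => ?_⟩
  have h1 : IsTope L (fun g => -T g) := tope_neg hL hs hT
  have h2 : Le p (fun g => -T g) := by
    intro g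
    rcases hle g with h | h
    · left
      have h' : -p g = 0 := h
      simpa using h'
    · right
      have h' : -p g = T g := h
      show p g = -T g
      rw [← h', neg_neg]
  have h3 := h.2 _ h1 h2
  rw [← h3]
  congr 1
  ext g
  constructor
  · rintro ⟨hw, h0⟩
    refine ⟨LO7_wall hL hs T g hw, ?_⟩
    have h' : -p g = 0 := h0
    simpa using h'
  · rintro ⟨hw, h0⟩
    refine ⟨?_, ?_⟩
    · have := LO7_wall hL hs _ g hw
      rw [LO7_negneg] at this
      exact this
    · show -p g = 0
      rw [h0, neg_zero]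

theorem LO7_vx {E : Type} {L : Set (E → SignType)} (hL : IsOM L) (hs : IsSimple L) (p : E → SignType)
    (m : ℕ) (h : Vx L m p) : Vx L m (fun g => -p g) := by
  refine ⟨LO7_cork hL hs p 2 h.1, ?_⟩
  rw [← h.2]
  congr 1
  ext g
  show -p g = 0 ↔ p g = 0
  simp

theorem LO7_ne {E : Type} [Finite E] {L : Set (E → SignType)} (hL : R3 L) (p : E → SignType)
    (h : Cork L p 2) : p ≠ fun g => -p g := by
  intro hp
  have h0 : p = fun _ => 0 := by
    funext g
    exact sneg (congrFun hp g) rfl
  obtain ⟨T, hT⟩ := exists_tope hL.good.om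
  have hle : Le p T := by
    intro g
    left
    rw [h0]
  have h2 := h.2 T hT hle
  have h3 := hL.rk.2 T hT (fun g => Or.inl rfl)
  rw [h0] at h2
  rw [h2] at h3
  exact absurd h3 (by norm_num)

/-- a set with two elements which contains `p` and its negative has no other elements -/
theorem LO7_two {E : Type} [Finite E] {L : Set (E → SignType)} (hL : R3 L) (m : ℕ) (e : E)
    (hn : {q | Vx L m q ∧ q e = 0}.ncard = 2) (p : E → SignType) (hp : Vx L m p) (he : p e = 0)
    (w : E → SignType) (hw : Vx L m w) (hwe : w e = 0) : w = p ∨ w = fun g => -p g := by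
  have hsub : ({p, fun g => -p g} : Set (E → SignType)) ⊆ {q | Vx L m q ∧ q e = 0} := by
    intro q hq
    rcases hq with rfl | hq
    · exact ⟨hp, he⟩
    · rw [Set.mem_singleton_iff] at hq
      rw [hq]
      exact ⟨LO7_vx hL.good.om hL.good.simple p m hp, by show -p e = 0; rw [he, neg_zero]⟩
  have heq := Set.eq_of_subset_of_ncard_le hsub (by
    rw [hn, Set.ncard_pair (LO7_ne hL p hp.1)]) (Set.toFinite _)
  have : w ∈ ({p, fun g => -p g} : Set (E → SignType)) := by
    rw [heq]
    exact ⟨hw, hwe⟩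
  exact this

theorem LO7_symm {E : Type} {L : Set (E → SignType)} (e : E) (v w : E → SignType) (h : Nb L e v w) :
    Nb L e w v := by
  obtain ⟨h1, h2, h3, h4, h5, T, h6, h7, h8, h9⟩ := h
  exact ⟨h2, h1, h4, h3, Ne.symm h5, T, h6, h7, h9, h8⟩

theorem LO7_proof (hSZZ : SZZ) (hNAD : NAD) (hNBC : NBC) : LO7 := by
  intro E _ L hL p e hp he hcase
  have hS := hSZZ E L hL.good hL.cl
  have hvx : ∀ Z, Cork L Z 2 → Vx L 2 Z ∨ Vx L 3 Z := by
    intro Z hZ
    rcases (hS Z hZ).1 with h | h
    · exact Or.inl ⟨hZ, h⟩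
    · exact Or.inr ⟨hZ, h⟩
  have hne23 : ∀ Z, Vx L 2 Z → ¬ Vx L 3 Z := by
    intro Z h h'
    have := h.2.symm.trans h'.2
    exact absurd this (by norm_num)
  -- it suffices that all neighbours are triple or all are double
  have key : (∀ w, Nb L e p w → Vx L 3 w) ∨ (∀ w, Nb L e p w → ¬ Vx L 3 w) → 
      ∀ w w', Nb L e p w → Nb L e p w' → (Vx L 3 w ↔ Vx L 3 w') := by
    rintro (h | h) w w' hw hw'
    · exact ⟨fun _ => h w' hw', fun _ => h w hw⟩
    · exact ⟨fun h1 => absurd h1 (h w hw), fun h1 => absurd h1 (h w' hw')⟩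
  apply key
  have hnb : ∀ w, Nb L e p w → Cork L w 2 ∧ w e = 0 ∧ w ≠ p ∧ w ≠ fun g => -p g := by
    intro w hw
    refine ⟨hw.2.1, hw.2.2.2.1, Ne.symm hw.2.2.2.2.1, fun h => ?_⟩
    rw [h] at hw
    exact (hNBC E L hL p e hp he).2 hw
  have hc3 : Av L e = 2 → Vx L 2 p → ∀ w, Nb L e p w → Vx L 3 w := by
    intro hA hp2 w hw
    obtain ⟨h1, h2, h3, h4⟩ := hnb w hw
    rcases hvx w h1 with h | h
    · rcases LO7_two hL 2 e hA p hp2 he w h h2 with h' | h'
      · exact absurd h' h3
      · exact absurd h' h4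
    · exact h
  rcases hcase with hB | hA | ⟨hA, hp2⟩ | ⟨hA, hB⟩ | ⟨h7, hA, hB⟩
  · right
    intro w hw h3
    have h0 : {q | Vx L 3 q ∧ q e = 0} = ∅ := (Set.ncard_eq_zero (Set.toFinite _)).1 hB
    have : w ∈ {q | Vx L 3 q ∧ q e = 0} := ⟨h3, (hnb w hw).2.1⟩
    rw [h0] at this
    exact this
  · left
    intro w hw
    obtain ⟨h1, h2, -, -⟩ := hnb w hw
    rcases hvx w h1 with h | h
    · have h0 : {q | Vx L 2 q ∧ q e = 0} = ∅ := (Set.ncard_eq_zero (Set.toFinite _)).1 hA
      have : w ∈ {q | Vx L 2 q ∧ q e = 0} := ⟨h, h2⟩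
      rw [h0] at this
      exact absurd this (Set.notMem_empty w)
    · exact h
  · exact Or.inl (hc3 hA hp2)
  · rcases hvx p hp with hp2 | hp3
    · exact Or.inl (hc3 hA hp2)
    · right
      intro w hw h3
      obtain ⟨h1, h2, h4, h5⟩ := hnb w hw
      rcases LO7_two hL 3 e hB p hp3 he w h3 h2 with h' | h'
      · exact h4 h'
      · exact h5 h'
  · -- seven elements
    have hDT : ∀ v w, Vx L 2 v → Nb L e v w → Vx L 3 w := by
      intro v w hv hw
      rcases hvx w hw.2.1 with h | h
      · exfalso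
        obtain ⟨T, hT, -, h8, h9⟩ := hw.2.2.2.2.2
        have := hNAD E L hL T v w hT hv h hw.2.2.2.2.1 h8 h9
        omega
      · exact h
    rcases hvx p hp with hp2 | hp3
    · exact Or.inl fun w hw => hDT p w hp2 hw
    · right
      classical
      have := Fintype.ofFinite E
      obtain ⟨D, hD⟩ : ∃ D : Finset (E → SignType), ∀ q, q ∈ D ↔ Vx L 2 q ∧ q e = 0 :=
        ⟨Finset.univ.filter (fun q => Vx L 2 q ∧ q e = 0), fun q => by simp⟩
      obtain ⟨R, hR⟩ : ∃ R : Finset (E → SignType), ∀ q, q ∈ R ↔ Vx L 3 q ∧ q e = 0 :=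
        ⟨Finset.univ.filter (fun q => Vx L 3 q ∧ q e = 0), fun q => by simp⟩
      have hDc : D.card = 4 := by
        rw [← hA, ← Set.ncard_coe_finset]
        show _ = {q | Vx L 2 q ∧ q e = 0}.ncard
        congr 1
        ext q
        exact hD q
      have hRc : R.card = 4 := by
        rw [← hB, ← Set.ncard_coe_finset]
        show _ = {q | Vx L 3 q ∧ q e = 0}.ncard
        congr 1
        ext q
        exact hR q
      have hdc := Finset.sum_card_bipartiteAbove_eq_sum_card_bipartiteBelow (s := D) (t := R) (fun v w => Nb L e v w)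
      have hleft : ∑ v ∈ D, (Finset.bipartiteAbove (fun v w => Nb L e v w) R v).card = 8 := by
        have h2 : ∀ v ∈ D, (Finset.bipartiteAbove (fun v w => Nb L e v w) R v).card = 2 := by
          intro v hv
          obtain ⟨hv1, hv2⟩ := (hD v).1 hv
          rw [← (hNBC E L hL v e hv1.1 hv2).1, ← Set.ncard_coe_finset]
          congr 1
          ext w
          rw [Finset.mem_coe, Finset.mem_bipartiteAbove]
          constructor
          · exact fun h => h.2
          · intro h
            exact ⟨(hR w).2 ⟨hDT v w hv1 h, h.2.2.2.1⟩, h⟩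
        rw [Finset.sum_congr rfl h2, Finset.sum_const, hDc]
        rfl
      have hle : ∀ w ∈ R, (Finset.bipartiteBelow (fun v w => Nb L e v w) D w).card ≤ 2 := by
        intro w hw
        obtain ⟨hw1, hw2⟩ := (hR w).1 hw
        rw [← (hNBC E L hL w e hw1.1 hw2).1, ← Set.ncard_coe_finset]
        apply Set.ncard_le_ncard _ (Set.toFinite _)
        intro v hv
        rw [Finset.mem_coe, Finset.mem_bipartiteBelow] at hv
        exact LO7_symm e v w hv.2
      have hsum2 : ∑ w ∈ R, 2 = 8 := by
        rw [Finset.sum_const, hRc]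
        rfl
      have heq : ∀ w ∈ R, (Finset.bipartiteBelow (fun v w => Nb L e v w) D w).card = 2 := by
        apply (Finset.sum_eq_sum_iff_of_le hle).1
        rw [← hdc, hleft, hsum2]
      intro w hw h3
      have hpR : p ∈ R := (hR p).2 ⟨hp3, he⟩
      have h2 := heq p hpR
      have hsub : ((Finset.bipartiteBelow (fun v w => Nb L e v w) D p : Finset (E → SignType)) : Set (E → SignType)) ⊆
          {w | Nb L e p w} := by
        intro v hv
        rw [Finset.mem_coe, Finset.mem_bipartiteBelow] at hv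
        exact LO7_symm e v p hv.2
      have hset := Set.eq_of_subset_of_ncard_le hsub (by
        rw [(hNBC E L hL p e hp he).1, Set.ncard_coe_finset, h2]) (Set.toFinite _)
      have hwm : w ∈ ((Finset.bipartiteBelow (fun v w => Nb L e v w) D p : Finset (E → SignType)) : Set (E → SignType)) := by
        rw [hset]
        exact hw
      rw [Finset.mem_coe, Finset.mem_bipartiteBelow] at hwm
      exact hne23 w ((hD w).1 hwm.1).1 h3

end Pool.Agent.helper66.SL
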