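import Pool.Agent.helper66.SL.SpecB

set_option autoImplicit false

namespace Pool.Agent.helper66.SL

open Pool.Agent.helper52.FC

theorem ZO2_term (r : SignType) (hr : r ≠ 0) (y : ℝ) :
    (r : ℝ) * y ≤ |y| ∧ ((r : ℝ) * y = |y| ↔ (SignType.sign y = 0 ∨ SignType.sign y = r)) := by
  rcases lt_trichotomy y 0 with hy | hy | hy
  · rw [abs_of_neg hy, sign_neg hy]
    cases r
    · exact absurd rfl hr
    · simp
    · simp
      constructor
      · linarith
      · linarith
  · subst hy
    simp
  · rw [abs_of_pos hy, sign_pos hy]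
    cases r
    · exact absurd rfl hr
    · simp
      constructor
      · linarith
      · linarith
    · simp

theorem ZO2_face {F : Type*} [AddCommGroup F] [Module ℝ F] (s : Set F) (l : F →ₗ[ℝ] ℝ) (N : ℝ)
    (hs : ∀ y ∈ s, l y ≤ N) (z : F) (hz : z ∈ convexHull ℝ s) (hzN : l z = N) :
    z ∈ convexHull ℝ {y | y ∈ s ∧ l y = N} := by
  obtain ⟨K, hK⟩ : ∃ K, K = convexHull ℝ {y | y ∈ s ∧ l y = N} := ⟨_, rfl⟩
  have hKN : ∀ y ∈ K, l y = N := by
    intro y hy
    have hsub : K ⊆ {y | l y = N} := by
      rw [hK]
      apply convexHull_min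
      · intro y hy
        exact hy.2
      · exact convex_hyperplane l.isLinear N
    exact hsub hy
  have hKc : Convex ℝ K := by rw [hK]; exact convex_convexHull ℝ _
  have hD : Convex ℝ ({y | l y < N} ∪ K) := by
    intro y1 h1 y2 h2 a b ha hb hab
    have h1' : l y1 ≤ N := by
      rcases h1 with h1 | h1
      · exact le_of_lt h1
      · exact (hKN _ h1).le
    have h2' : l y2 ≤ N := by
      rcases h2 with h2 | h2
      · exact le_of_lt h2
      · exact (hKN _ h2).le
    rcases eq_or_lt_of_le ha with ha0 | ha0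
    · rw [← ha0, zero_smul, zero_add]
      have : b = 1 := by linarith
      rw [this, one_smul]
      exact h2
    rcases eq_or_lt_of_le hb with hb0 | hb0
    · rw [← hb0, zero_smul, add_zero]
      have : a = 1 := by linarith
      rw [this, one_smul]
      exact h1
    rcases h1 with h1 | h1
    · left
      show l (a • y1 + b • y2) < N
      rw [map_add, map_smul, map_smul, smul_eq_mul, smul_eq_mul]
      have e1 : a * l y1 < a * N := mul_lt_mul_of_pos_left h1 ha0
      have e2 : b * l y2 ≤ b * N := mul_le_mul_of_nonneg_left h2' hb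
      have e3 : a * N + b * N = N := by rw [← add_mul, hab, one_mul]
      linarith
    · rcases h2 with h2 | h2
      · left
        show l (a • y1 + b • y2) < N
        rw [map_add, map_smul, map_smul, smul_eq_mul, smul_eq_mul]
        have e1 : a * l y1 ≤ a * N := mul_le_mul_of_nonneg_left h1' ha
        have e2 : b * l y2 < b * N := mul_lt_mul_of_pos_left h2 hb0
        have e3 : a * N + b * N = N := by rw [← add_mul, hab, one_mul]
        linarith
      · right
        exact hKc h1 h2 ha hb hab
  have hmem : z ∈ {y | l y < N} ∪ K := by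
    apply convexHull_min _ hD hz
    intro y hy
    rcases lt_or_eq_of_le (hs y hy) with h | h
    · exact Or.inl h
    · right
      rw [hK]
      exact subset_convexHull ℝ _ ⟨hy, h⟩
  rcases hmem with h | h
  · exact absurd hzN (ne_of_lt h)
  · rw [← hK]
    exact h

theorem ZO2_inner {E : Type} [Fintype E] {d : ℕ} (v : E → EuclideanSpace ℝ (Fin d)) (R : E → SignType)
    (hR : ∀ e, R e ≠ 0) (x : EuclideanSpace ℝ (Fin d)) :
    inner ℝ x (∑ e, (R e : ℝ) • v e) ≤ ∑ e, |inner ℝ (v e) x| ∧
    (inner ℝ x (∑ e, (R e : ℝ) • v e) = ∑ e, |inner ℝ (v e) x| ↔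
      Le (fun e => SignType.sign (inner ℝ (v e) x)) R) := by
  have h : inner ℝ x (∑ e, (R e : ℝ) • v e) = ∑ e, (R e : ℝ) * inner ℝ (v e) x := by
    rw [inner_sum]
    apply Finset.sum_congr rfl
    intro e _
    rw [real_inner_smul_right, real_inner_comm]
  rw [h]
  refine ⟨Finset.sum_le_sum fun e _ => (ZO2_term (R e) (hR e) _).1, ?_⟩
  rw [Finset.sum_eq_sum_iff_of_le (fun e _ => (ZO2_term (R e) (hR e) _).1)]
  constructor
  · intro h e
    exact (ZO2_term (R e) (hR e) _).2.1 (h e (Finset.mem_univ e))
  · intro h e _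
    exact (ZO2_term (R e) (hR e) _).2.2 (h e)

theorem ZO2_proof (hWFZ : WFZ) (hGEO : GEO) (hZO1 : ZO1) : ZO2 := by
  intro E _ L d v hs hL S T hST
  have hOM : IsOM L := by rw [hL]; exact arr_om v
  obtain ⟨hext, hinj⟩ := hZO1 E L d v hs hL
  obtain ⟨p, hp⟩ : ∃ p : {T : E → SignType // IsTope L T} → EuclideanSpace ℝ (Fin d),
      p = fun T => ∑ e, (T.1 e : ℝ) • v e := ⟨_, rfl⟩
  have hZ : Zon L v = convexHull ℝ (Set.range p) := by rw [hp]; rfl
  rw [← hp] at hext hinj
  have hpS : ∑ e, (S.1 e : ℝ) • v e = p S := by rw [hp]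
  have hpT : ∑ e, (T.1 e : ℝ) • v e = p T := by rw [hp]
  rw [hpS, hpT]
  have hin : ∀ (x : EuclideanSpace ℝ (Fin d)) (R : {T : E → SignType // IsTope L T}),
      inner ℝ x (p R) ≤ ∑ e, |inner ℝ (v e) x| ∧
      (inner ℝ x (p R) = ∑ e, |inner ℝ (v e) x| ↔
        Le (fun e => SignType.sign (inner ℝ (v e) x)) R.1) := by
    intro x R
    rw [hp]
    exact ZO2_inner v R.1 (fun e => tope_supp hOM hs R.2 e) x
  have hmemZ : ∀ R, p R ∈ Zon L v := fun R => by
    rw [hZ]
    exact subset_convexHull ℝ _ ⟨R, rfl⟩
  have hle : ∀ (x z : EuclideanSpace ℝ (Fin d)), z ∈ Zon L v → inner ℝ x z ≤ ∑ e, |inner ℝ (v e) x| := by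
    intro x z hz
    rw [hZ] at hz
    have hsub : convexHull ℝ (Set.range p) ⊆ {z | (innerSL ℝ x) z ≤ ∑ e, |inner ℝ (v e) x|} := by
      apply convexHull_min
      · rintro _ ⟨R, rfl⟩
        exact (hin x R).1
      · exact convex_halfSpace_le (innerSL ℝ x).toLinearMap.isLinear _
    exact hsub hz
  constructor
  · intro hexp
    obtain ⟨l, hl⟩ := hexp ⟨p S, left_mem_segment ℝ _ _⟩
    obtain ⟨x, hx⟩ : ∃ x, ∀ z, l z = inner ℝ x z := by
      refine ⟨(InnerProductSpace.toDual ℝ _).symm l, fun z => ?_⟩
      rw [InnerProductSpace.toDual_symm_apply]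
    obtain ⟨X, hX⟩ : ∃ X : E → SignType, X = fun e => SignType.sign (inner ℝ (v e) x) := ⟨_, rfl⟩
    have hXL : X ∈ L := by
      rw [hL]
      exact ⟨x, fun e => by rw [hX]⟩
    have hcS : IsTope L (cmp X S.1) := by
      apply tope_of (hOM.comp X hXL S.1 S.2.1)
      intro e
      by_cases h : X e = 0
      · rw [cmp_pos h]
        exact tope_supp hOM hs S.2 e
      · rw [cmp_neg h]
        exact h
    have hmax : inner ℝ x (p ⟨cmp X S.1, hcS⟩) = ∑ e, |inner ℝ (v e) x| :=
      (hin x _).2.2 (by rw [← hX]; exact le_cmp X S.1)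
    have hmx : ∀ R, p R ∈ segment ℝ (p S) (p T) → Le X R.1 := by
      intro R hR
      rw [hl] at hR
      have h1 := hR.2 _ (hmemZ ⟨cmp X S.1, hcS⟩)
      rw [hx, hx, hmax] at h1
      rw [hX]
      exact (hin x R).2.1 (le_antisymm (hin x R).1 h1)
    have hXS := hmx S (left_mem_segment ℝ _ _)
    have hXT := hmx T (right_mem_segment ℝ _ _)
    have hcon : ∀ R : {T : E → SignType // IsTope L T}, Le X R.1 → R = S ∨ R = T := by
      intro R hR
      have hRN := (hin x R).2.2 (by rw [← hX]; exact hR)
      have hRs : p R ∈ segment ℝ (p S) (p T) := by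
        rw [hl]
        refine ⟨hmemZ R, fun y hy => ?_⟩
        rw [hx, hx, hRN]
        exact hle x y hy
      have hRe : p R ∈ (Zon L v).extremePoints ℝ := by
        rw [hext]
        exact ⟨R, rfl⟩
      rw [mem_extremePoints_iff_forall_segment] at hRe
      rcases hRe.2 _ (hmemZ S) _ (hmemZ T) hRs with h | h
      · exact Or.inl (hinj h).symm
      · exact Or.inr (hinj h).symm
    obtain ⟨e, hwe, hne⟩ := hGEO E L hOM hs S.1 T.1 S.2 T.2 (fun h => hST (Subtype.ext h))
    have hXe : X e = 0 := by
      rcases hXS e with h | h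
      · exact h
      · rcases hXT e with h' | h'
        · exact h'
        · exact absurd (h.symm.trans h') hne
    have hXf : Le X (fl S.1 e) := by
      intro g
      by_cases hg : g = e
      · subst hg
        exact Or.inl hXe
      · rw [fl_ne _ hg]
        exact hXS g
    refine ⟨e, hne, fun f hf => ?_⟩
    rcases hcon ⟨fl S.1 e, hwe⟩ hXf with h | h
    · exfalso
      have h1 := congrFun (congrArg Subtype.val h) e
      change fl S.1 e e = S.1 e at h1
      rw [fl_same] at h1
      have h0 := tope_supp hOM hs S.2 e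
      exact h0 (sneg h1.symm.symm.symm rfl)
    · have h1 := congrFun (congrArg Subtype.val h) f
      change fl S.1 e f = T.1 f at h1
      rw [fl_ne _ hf] at h1
      exact h1
  · rintro ⟨e, hne, heq⟩
    have hS0 := tope_supp hOM hs S.2
    have hT0 := tope_supp hOM hs T.2
    have hTfl : fl S.1 e = T.1 := by
      funext g
      by_cases hg : g = e
      · subst hg
        rw [fl_same]
        exact (sne (hT0 g) (hS0 g) (Ne.symm hne)).symm
      · rw [fl_ne _ hg]
        exact heq g hg
    have hw : Wall L S.1 e := by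
      show IsTope L (fl S.1 e)
      rw [hTfl]
      exact T.2
    have hz : fz S.1 e ∈ L := (hWFZ E L hOM hs S.1 S.2 e).1 hw
    have hz' : fz S.1 e ∈ arr v := hL.le hz
    obtain ⟨x, hx⟩ := hz'
    have hX : (fun e => SignType.sign (inner ℝ (v e) x)) = fz S.1 e := funext fun g => (hx g).symm
    have hSle : Le (fz S.1 e) S.1 := by
      intro g
      by_cases hg : g = e
      · subst hg
        exact Or.inl (fz_same _ _)
      · exact Or.inr (fz_ne _ hg)
    have hTle : Le (fz S.1 e) T.1 := by
      intro g
      by_cases hg : g = e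
      · subst hg
        exact Or.inl (fz_same _ _)
      · exact Or.inr ((fz_ne _ hg).trans (heq g hg))
    have hSN := (hin x S).2.2 (by rw [hX]; exact hSle)
    have hTN := (hin x T).2.2 (by rw [hX]; exact hTle)
    intro _
    refine ⟨innerSL ℝ x, ?_⟩
    apply Set.Subset.antisymm
    · intro z hz
      have hzZ : z ∈ Zon L v := by
        have hc : Convex ℝ (Zon L v) := by rw [hZ]; exact convex_convexHull ℝ _
        exact hc.segment_subset (hmemZ S) (hmemZ T) hz
      refine ⟨hzZ, fun y hy => ?_⟩
      obtain ⟨a, b, ha, hb, hab, rfl⟩ := hz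
      show inner ℝ x y ≤ inner ℝ x (a • p S + b • p T)
      rw [inner_add_right, real_inner_smul_right, real_inner_smul_right, hSN, hTN, ← add_mul, hab, one_mul]
      exact hle x y hy
    · rintro z ⟨hz, hmax⟩
      have h1 : inner ℝ x z = ∑ e, |inner ℝ (v e) x| := by
        apply le_antisymm (hle x z hz)
        have := hmax _ (hmemZ S)
        change inner ℝ x (p S) ≤ inner ℝ x z at this
        rw [hSN] at this
        exact this
      rw [hZ] at hz
      have h2 := ZO2_face (Set.range p) (innerSL ℝ x).toLinearMap (∑ e, |inner ℝ (v e) x|) (by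
        rintro _ ⟨R, rfl⟩
        exact (hin x R).1) z hz h1
      rw [← convexHull_pair]
      apply convexHull_mono _ h2
      rintro _ ⟨⟨R, rfl⟩, hR⟩
      have hR' := (hin x R).2.1 hR
      rw [hX] at hR'
      have hRg : ∀ g, g ≠ e → R.1 g = S.1 g := by
        intro g hg
        rcases hR' g with h | h
        · rw [fz_ne _ hg] at h
          exact absurd h (hS0 g)
        · rw [fz_ne _ hg] at h
          exact h.symm
      by_cases hRe : R.1 e = S.1 e
      · left
        have : R = S := by
          apply Subtype.ext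
          funext g
          by_cases hg : g = e
          · rw [hg]; exact hRe
          · exact hRg g hg
        rw [this]
      · right
        have : R = T := by
          apply Subtype.ext
          funext g
          by_cases hg : g = e
          · rw [hg]
            have h3 := sne (tope_supp hOM hs R.2 e) (hS0 e) hRe
            have h4 := sne (hT0 e) (hS0 e) (Ne.symm hne)
            rw [h3, h4]
          · rw [hRg g hg]
            exact heq g hg
        rw [this]
        rfl

end Pool.Agent.helper66.SL
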